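import Pool.Agent.H90.RG.Targets

/-!
# Row G_PRG of the board reg_modules: partial regularity from regularity for small energy
-/

set_option autoImplicit false

namespace Pool.Agent.H40.RG

open MeasureTheory Metric Set Filter Topology Pool.Agent.H87.SN Pool.Agent.H90.RG
open scoped ContDiff

theorem pf_PRG (hZ : T_ZSH) (hG : T_GLU) (hC : T_ZCV) : T_PRG := by
  intro d m N A ε hε hE u G hu
  obtain ⟨hopen, hsub, u', hu', hae⟩ := hG (d + 2) m u
  refine ⟨Reg u, u', hopen, hsub, hu', hae, fun x hx hxU r hr hxr => ?_⟩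
  by_contra hlt
  rw [not_le] at hlt
  obtain ⟨ρ, hρ⟩ : ∃ ρ : ℝ, ρ = r / 2 := ⟨_, rfl⟩
  have hρ0 : 0 < ρ := by linarith
  have h2ρ : 2 * ρ = r := by linarith
  have hzt0 : zt x ρ (0 : E (d + 2)) = x := by
    unfold zt
    rw [smul_zero, add_zero]
  obtain ⟨hSH, hEn⟩ := hZ (d + 2) m N A u G hu x ρ hρ0 (by rw [h2ρ]; exact hxr)
  have h1 := hEn 0 2
  rw [hzt0, mul_comm ρ 2, h2ρ] at h1
  have hI : ∫ y in ball (0 : E (d + 2)) 2, nsq (zg x ρ G y) < ε := by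
    have hp : 0 < ρ ^ (d + 2) := pow_pos hρ0 _
    have h2 : ρ ^ 2 * ∫ y in ball x r, nsq (G y) < ρ ^ 2 * (ε / 2 ^ d * r ^ d) :=
      mul_lt_mul_of_pos_left hlt (pow_pos hρ0 2)
    have h3 : ρ ^ 2 * (ε / 2 ^ d * r ^ d) = ρ ^ (d + 2) * ε := by
      rw [← h2ρ, mul_pow, pow_add]
      field_simp
    rw [← h1, h3] at h2
    exact lt_of_mul_lt_mul_left h2 hp.le
  obtain ⟨r', hr', hs', v, hv, hvae⟩ := hE _ _ hSH hI
  apply hxU
  obtain ⟨-, -, c3, -, c5⟩ := hC (d + 2) x ρ hρ0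
  have hpre : zt x ρ ⁻¹' ball x (ρ * r') = ball (0 : E (d + 2)) r' := by
    have h4 := c3 0 r'
    rw [hzt0] at h4
    exact h4
  have hinv : ∀ y : E (d + 2), ρ⁻¹ • (zt x ρ y - x) = y := by
    intro y
    unfold zt
    rw [add_sub_cancel_left, smul_smul, inv_mul_cancel₀ hρ0.ne', one_smul]
  have hinv' : ∀ z : E (d + 2), zt x ρ (ρ⁻¹ • (z - x)) = z := by
    intro z
    unfold zt
    rw [smul_smul, mul_inv_cancel₀ hρ0.ne', one_smul, add_sub_cancel]
  have hmem : ∀ z ∈ ball x (ρ * r'), ρ⁻¹ • (z - x) ∈ ball (0 : E (d + 2)) r' := by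
    intro z hz
    rw [← hpre, mem_preimage, hinv']
    exact hz
  refine ⟨ρ * r', mul_pos hρ0 hr', ?_, fun z => v (ρ⁻¹ • (z - x)), ?_, ?_⟩
  · intro z hz
    have h5 := hs' (hmem z hz)
    have h6 : ρ⁻¹ • (z - x) ∈ zt x ρ ⁻¹' ball x (ρ * 2) := by
      have h7 := c3 0 2
      rw [hzt0] at h7
      rw [h7]
      exact h5
    rw [mem_preimage, hinv', mul_comm ρ 2, h2ρ] at h6
    exact hxr h6
  · refine hv.comp (ContDiff.contDiffOn ?_) hmem
    exact (contDiff_id.sub contDiff_const).const_smul ρ⁻¹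
  · refine (c5 (fun z => v (ρ⁻¹ • (z - x)) = u z) (ball x (ρ * r')) measurableSet_ball).2 ?_
    rw [hpre]
    filter_upwards [hvae] with y hy
    rw [hinv]
    exact hy

end Pool.Agent.H40.RG
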